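import Mathlib
import Pool.Agent.H117R2.UC.Defs

set_option autoImplicit false

/-! Union-closed 0.383 (helper117), task T09 (helper784): `lemQ`, `lemQ'`. -/

namespace H784U.Q

open Real Pool.Agent.H117R2.UC Filter Topology

/-- `(1+v) log (1+v) + (1-v) log (1-v)` -/
noncomputable def Ev (v : ℝ) : ℝ := (1 + v) * log (1 + v) + (1 - v) * log (1 - v)

theorem Ev_hasSum {v : ℝ} (h0 : 0 ≤ v) (h1 : v < 1) :
    HasSum (fun n : ℕ => (v ^ 2) ^ (n + 1) * (1 / (((n : ℝ) + 1) * (2 * n + 1)))) (Ev v) := by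
  have hx : |v ^ 2| < 1 := by
    rw [abs_of_nonneg (by positivity)]; nlinarith
  have hv : |v| < 1 := by rwa [abs_of_nonneg h0]
  have h2 := hasSum_pow_div_log_of_abs_lt_one hx
  have h3 := hasSum_log_sub_log_of_abs_lt_one hv
  have h4 := (h3.mul_left v).sub h2
  have h5 : v * (log (1 + v) - log (1 - v)) - -log (1 - v ^ 2) = Ev v := by
    have : 1 - v ^ 2 = (1 + v) * (1 - v) := by ring
    rw [this, log_mul (by linarith) (by linarith), Ev]; ring
  rw [h5] at h4
  have h6 : (fun n : ℕ => v * (2 * (1 / (2 * (n : ℝ) + 1)) * v ^ (2 * n + 1)) -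
      (v ^ 2) ^ (n + 1) / ((n : ℝ) + 1)) =
      (fun n : ℕ => (v ^ 2) ^ (n + 1) * (1 / (((n : ℝ) + 1) * (2 * n + 1)))) := by
    funext n
    have e1 : v * (2 * (1 / (2 * (n : ℝ) + 1)) * v ^ (2 * n + 1)) =
        (v ^ 2) ^ (n + 1) * (2 / (2 * (n : ℝ) + 1)) := by
      rw [← pow_mul]; ring
    have e2 : (2 / (2 * (n : ℝ) + 1)) - 1 / ((n : ℝ) + 1) =
        1 / (((n : ℝ) + 1) * (2 * n + 1)) := by
      have : (n : ℝ) + 1 ≠ 0 := by positivity
      have : 2 * (n : ℝ) + 1 ≠ 0 := by positivity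
      field_simp
      ring
    rw [e1, ← e2]; ring
  rw [h6] at h4
  exact h4

theorem Ev_one : Ev 1 = 2 * log 2 := by
  simp [Ev]; norm_num

theorem Ev_cont : Continuous Ev := by
  have : Ev = fun v => -negMulLog (1 + v) - negMulLog (1 - v) := by
    funext v; simp [Ev, negMulLog]; ring
  rw [this]; fun_prop

theorem S_le (n : ℕ) :
    ∑ k ∈ Finset.range n, (1 / (((k : ℝ) + 1) * (2 * k + 1))) ≤ 2 * log 2 := by
  have h1 : Tendsto (fun v : ℝ => ∑ k ∈ Finset.range n,
      (v ^ 2) ^ (k + 1) * (1 / (((k : ℝ) + 1) * (2 * k + 1)))) (𝓝[<] 1)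
      (𝓝 (∑ k ∈ Finset.range n, ((1:ℝ) ^ 2) ^ (k + 1) * (1 / (((k : ℝ) + 1) * (2 * k + 1))))) := by
    apply Tendsto.mono_left _ nhdsWithin_le_nhds
    have : Continuous (fun v : ℝ => ∑ k ∈ Finset.range n,
      (v ^ 2) ^ (k + 1) * (1 / (((k : ℝ) + 1) * (2 * k + 1)))) := by fun_prop
    exact this.tendsto 1
  have h2 : Tendsto Ev (𝓝[<] 1) (𝓝 (2 * log 2)) := by
    rw [← Ev_one]
    exact (Ev_cont.tendsto 1).mono_left nhdsWithin_le_nhds
  have h3 := le_of_tendsto_of_tendsto h1 h2 (by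
    have : Set.Ioo (0:ℝ) 1 ∈ 𝓝[<] (1:ℝ) := Ioo_mem_nhdsLT (by norm_num)
    filter_upwards [this] with v hv
    exact sum_le_hasSum _ (fun i _ => by positivity) (Ev_hasSum hv.1.le hv.2))
  simpa using h3

/-- E2 -/
theorem Ev_le {v : ℝ} (h0 : 0 ≤ v) (h1 : v ≤ 1) : Ev v ≤ v ^ 2 + (2 * log 2 - 1) * v ^ 4 := by
  rcases h1.lt_or_eq with h1 | h1
  · have hL : 1 ≤ 2 * log 2 := by have := Real.log_two_gt_d9; linarith
    refine le_of_tendsto' (Ev_hasSum h0 h1).tendsto_sum_nat fun n => ?_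
    rcases n with _ | m
    · simp only [Finset.range_zero, Finset.sum_empty]
      have : 0 ≤ (2 * log 2 - 1) * v ^ 4 := mul_nonneg (by linarith) (by positivity)
      positivity
    · rw [Finset.sum_range_succ']
      have hS := S_le (m + 1)
      rw [Finset.sum_range_succ'] at hS
      have h2 : ∑ k ∈ Finset.range m, (v ^ 2) ^ (k + 1 + 1) *
          (1 / ((((k + 1 : ℕ) : ℝ) + 1) * (2 * ((k + 1 : ℕ) : ℝ) + 1))) ≤
          v ^ 4 * ∑ k ∈ Finset.range m,
            (1 / ((((k + 1 : ℕ) : ℝ) + 1) * (2 * ((k + 1 : ℕ) : ℝ) + 1))) := by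
        rw [Finset.mul_sum]
        refine Finset.sum_le_sum fun k _ => ?_
        refine mul_le_mul_of_nonneg_right ?_ (by positivity)
        have : (v ^ 2) ^ (k + 1 + 1) = v ^ 4 * (v ^ 2) ^ k := by ring
        rw [this]
        have h3 : (v ^ 2) ^ k ≤ 1 := pow_le_one₀ (by positivity) (by nlinarith)
        have : 0 ≤ v ^ 4 := by positivity
        nlinarith
      have h3 : v ^ 4 * ∑ k ∈ Finset.range m,
            (1 / ((((k + 1 : ℕ) : ℝ) + 1) * (2 * ((k + 1 : ℕ) : ℝ) + 1))) ≤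
            v ^ 4 * (2 * log 2 - 1) := by
        apply mul_le_mul_of_nonneg_left _ (by positivity)
        norm_num at hS ⊢
        linarith
      norm_num at h2 h3 ⊢
      linarith
  · subst h1
    rw [Ev_one]; norm_num

theorem hb_eq {w : ℝ} (h0 : 0 ≤ w) (h1 : w ≤ 1) : hb w = log 2 - Ev (1 - 2 * w) / 2 := by
  rcases h0.lt_or_eq with h0 | h0
  · rcases h1.lt_or_eq with h1 | h1
    · have e1 : 1 + (1 - 2 * w) = 2 * (1 - w) := by ring
      have e2 : 1 - (1 - 2 * w) = 2 * w := by ring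
      rw [hb, Ev, e1, e2, log_mul (by norm_num) (by linarith), log_mul (by norm_num) (by linarith),
        negMulLog, negMulLog]
      ring
    · subst h1
      simp [hb, Ev, negMulLog]
      norm_num
  · subst h0
    simp [hb, Ev, negMulLog]
    norm_num

/-- lower bound for the entropy -/
theorem hb_ge {w : ℝ} (h0 : 0 ≤ w) (h1 : w ≤ 1 / 2) :
    log 2 - (1 - 2 * w) ^ 2 / 2 - (log 2 - 1 / 2) * (1 - 2 * w) ^ 4 ≤ hb w := by
  rw [hb_eq h0 (by linarith)]
  have := Ev_le (v := 1 - 2 * w) (by linarith) (by linarith)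
  linarith

theorem hb_ge' {w : ℝ} (h0 : 0 ≤ w) (h1 : w ≤ 1 / 2) : 4 * log 2 * (w * (1 - w)) ≤ hb w := by
  refine le_trans ?_ (hb_ge h0 h1)
  have hL : 1 ≤ 2 * log 2 := by have := Real.log_two_gt_d9; linarith
  have h2 : 0 ≤ (2 * log 2 - 1) * ((1 - 2 * w) ^ 2 * (1 - (1 - 2 * w) ^ 2)) := by
    apply mul_nonneg (by linarith)
    apply mul_nonneg (by positivity)
    nlinarith
  nlinarith

/-- relative entropy -/
noncomputable def KL (w z : ℝ) : ℝ :=
  -negMulLog w - negMulLog (1 - w) - w * log z - (1 - w) * log (1 - z)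

theorem KL_eq {w z : ℝ} (hw0 : 0 ≤ w) (hw1 : w ≤ 1) (hz0 : 0 < z) (hz1 : z < 1) :
    w * log (w / z) + (1 - w) * log ((1 - w) / (1 - z)) = KL w z := by
  have h1 : w * log (w / z) = -negMulLog w - w * log z := by
    rcases hw0.lt_or_eq with h | h
    · rw [log_div h.ne' hz0.ne', negMulLog]; ring
    · subst h; simp [negMulLog]
  have h2 : (1 - w) * log ((1 - w) / (1 - z)) = -negMulLog (1 - w) - (1 - w) * log (1 - z) := by
    rcases hw1.lt_or_eq with h | h
    · rw [log_div (by linarith) (by linarith), negMulLog]; ring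
    · subst h; simp [negMulLog]
  rw [h1, h2, KL]; ring

theorem KL_self {z : ℝ} : KL z z = 0 := by
  simp only [KL, negMulLog]; ring

/-- quadratic lower bound -/
theorem KL_ge {w z : ℝ} (hw0 : 0 ≤ w) (hwz : w ≤ z) (hz0 : 0 < z) (hz1 : z ≤ 1 / 2) :
    (z - w) ^ 2 / (2 * (z * (1 - z))) ≤ KL w z := by
  have hD : ∀ x ∈ Set.Ioo 0 z, HasDerivAt (fun w => KL w z - (z - w) ^ 2 / (2 * (z * (1 - z))))
      (log x - log (1 - x) - log z + log (1 - z) + (z - x) / (z * (1 - z))) x := by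
    intro x hx
    have hx1 : 1 - x ≠ 0 := by have := hx.2; linarith
    have h1 : HasDerivAt (fun w : ℝ => negMulLog w) (-log x - 1) x := hasDerivAt_negMulLog hx.1.ne'
    have h2 : HasDerivAt (fun w : ℝ => negMulLog (1 - w)) ((-log (1 - x) - 1) * (-1)) x := by
      have h3 : HasDerivAt (fun w : ℝ => 1 - w) (-1) x := by
        simpa using (hasDerivAt_id x).const_sub 1
      exact (hasDerivAt_negMulLog hx1).comp x h3
    have h3 : HasDerivAt (fun w : ℝ => w * log z) (1 * log z) x :=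
      (hasDerivAt_id x).mul_const _
    have h4 : HasDerivAt (fun w : ℝ => (1 - w) * log (1 - z)) ((-1) * log (1 - z)) x := by
      have h5 : HasDerivAt (fun w : ℝ => 1 - w) (-1) x := by
        simpa using (hasDerivAt_id x).const_sub 1
      exact h5.mul_const _
    have h5 : HasDerivAt (fun w : ℝ => (z - w) ^ 2 / (2 * (z * (1 - z))))
        ((2 * (z - x) * (-1)) / (2 * (z * (1 - z)))) x := by
      have h6 : HasDerivAt (fun w : ℝ => z - w) (-1) x := by
        simpa using (hasDerivAt_id x).const_sub z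
      have h7 := (h6.pow 2).div_const (2 * (z * (1 - z)))
      simpa using h7
    have h6 := (((h1.neg.sub h2).sub h3).sub h4).sub h5
    have e : -(-log x - 1) - (-log (1 - x) - 1) * -1 - 1 * log z - -1 * log (1 - z) -
        2 * (z - x) * -1 / (2 * (z * (1 - z))) =
        log x - log (1 - x) - log z + log (1 - z) + (z - x) / (z * (1 - z)) := by
      have : z * (1 - z) ≠ 0 := by
        apply mul_ne_zero hz0.ne'; linarith
      field_simp
      ring
    rw [e] at h6
    exact h6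
  have hanti : AntitoneOn (fun w => KL w z - (z - w) ^ 2 / (2 * (z * (1 - z)))) (Set.Icc 0 z) := by
    apply antitoneOn_of_deriv_nonpos (convex_Icc 0 z)
    · unfold KL
      apply Continuous.continuousOn
      fun_prop
    · intro x hx
      rw [interior_Icc] at hx
      exact (hD x hx).differentiableAt.differentiableWithinAt
    · intro x hx
      rw [interior_Icc] at hx
      rw [(hD x hx).deriv]
      have hx0 := hx.1
      have hxz := hx.2
      have hx1 : 0 < 1 - x := by linarith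
      have hz' : 0 < 1 - z := by linarith
      set t := (z - x) / (x * (1 - z)) with ht
      have ht0 : 0 ≤ t := by
        apply div_nonneg (by linarith); positivity
      have h1 := le_log_one_add_of_nonneg ht0
      have h2 : 1 + t = (z * (1 - x)) / (x * (1 - z)) := by
        rw [ht]; field_simp; ring
      have h3 : log (1 + t) = log z + log (1 - x) - log x - log (1 - z) := by
        rw [h2, log_div (by positivity) (by positivity), log_mul hz0.ne' hx1.ne',
          log_mul hx0.ne' hz'.ne']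
        ring
      have h4 : (z - x) / (z * (1 - z)) ≤ 2 * t / (t + 2) := by
        have h5 : 2 * t / (t + 2) = 2 * (z - x) / (z + x - 2 * x * z) := by
          have h6 : 0 < z + x - 2 * x * z := by nlinarith
          have h7 : t + 2 = (z + x - 2 * x * z) / (x * (1 - z)) := by
            rw [ht]; field_simp; ring
          rw [h7, ht]
          field_simp
        rw [h5, div_le_div_iff₀ (by positivity) (by nlinarith)]
        have h8 : 0 ≤ (z - x) * ((z - x) * (1 - 2 * z)) := by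
          apply mul_nonneg (by linarith)
          apply mul_nonneg (by linarith) (by linarith)
        nlinarith
      linarith
  have h1 := hanti (a := w) (b := z) ⟨hw0, hwz⟩ ⟨hz0.le, le_refl z⟩ hwz
  simp only [KL_self, sub_self] at h1
  norm_num at h1
  linarith

/-- Gibbs -/
theorem KL_nonneg {w z : ℝ} (hw0 : 0 ≤ w) (hw1 : w ≤ 1) (hz0 : 0 < z) (hz1 : z < 1) :
    0 ≤ KL w z := by
  have h1 : w - z ≤ -negMulLog w - w * log z := by
    rcases hw0.lt_or_eq with h | h
    · have h2 : log (z / w) ≤ z / w - 1 := log_le_sub_one_of_pos (by positivity)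
      rw [log_div hz0.ne' h.ne'] at h2
      have h3 : w * (log z - log w) ≤ w * (z / w - 1) := mul_le_mul_of_nonneg_left h2 hw0
      have h4 : w * (z / w - 1) = z - w := by field_simp
      rw [negMulLog]; nlinarith
    · subst h; simp [negMulLog]; linarith
  have h2 : z - w ≤ -negMulLog (1 - w) - (1 - w) * log (1 - z) := by
    rcases hw1.lt_or_eq with h | h
    · have h0 : 0 < 1 - w := by linarith
      have h0' : 0 < 1 - z := by linarith
      have h2 : log ((1 - z) / (1 - w)) ≤ (1 - z) / (1 - w) - 1 :=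
        log_le_sub_one_of_pos (by positivity)
      rw [log_div h0'.ne' h0.ne'] at h2
      have h3 : (1 - w) * (log (1 - z) - log (1 - w)) ≤ (1 - w) * ((1 - z) / (1 - w) - 1) :=
        mul_le_mul_of_nonneg_left h2 h0.le
      have h4 : (1 - w) * ((1 - z) / (1 - w) - 1) = w - z := by field_simp; ring
      rw [negMulLog]; nlinarith
    · subst h; simp [negMulLog]; linarith
  rw [KL]; linarith

/-- polynomial inequality -/
theorem poly_ineq {u v L : ℝ} (hL0 : 693 / 1000 ≤ L) (hL1 : L ≤ 694 / 1000) (hu0 : 0 ≤ u)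
    (huv : u ≤ v) (hv : v ≤ 1) :
    0 ≤ 16 * (v - u) ^ 2 + 2 * (1 - u ^ 2) * (L * u ^ 2 - v ^ 2 / 2 - (L - 1 / 2) * v ^ 4) := by
  obtain ⟨δ, hδ⟩ : ∃ δ, δ = v - u := ⟨_, rfl⟩
  obtain ⟨m, hm⟩ : ∃ m, m = 1 - v ^ 2 := ⟨_, rfl⟩
  have hv0 : 0 ≤ v := hu0.trans huv
  have hδ0 : 0 ≤ δ := by rw [hδ]; linarith
  have hv2 : v ^ 2 ≤ 1 := by nlinarith
  have hv2' : 0 ≤ v ^ 2 := by positivity
  have hm0 : 0 ≤ m := by rw [hm]; linarith
  have hu2 : u ^ 2 ≤ 1 := by nlinarith
  have hA : 64 / 100 ≤ 1 + L / 8 * (1 - u ^ 2) - L / 2 * v ^ 2 + L / 4 * v * δ -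
      (L - 1 / 2) / 8 * v ^ 2 * m := by
    have h1 : 0 ≤ L / 8 * (1 - u ^ 2) := mul_nonneg (by linarith) (by linarith)
    have h2 : 0 ≤ L / 4 * v * δ := mul_nonneg (mul_nonneg (by linarith) hv0) hδ0
    have h3 : L / 2 * v ^ 2 ≤ 347 / 1000 := by nlinarith
    have h4 : v ^ 2 * m ≤ 1 / 4 := by rw [hm]; nlinarith [sq_nonneg (v ^ 2 - 1 / 2)]
    have h5 : 0 ≤ v ^ 2 * m := mul_nonneg hv2' hm0
    have h6 : (L - 1 / 2) / 8 * v ^ 2 * m ≤ 194 / 8000 * (1 / 4) := by
      rw [mul_assoc]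
      exact mul_le_mul (by linarith) h4 h5 (by norm_num)
    linarith
  have hB : L / 4 - (L - 1 / 2) / 4 * v ^ 2 ≤ 1735 / 10000 := by
    have : 0 ≤ (L - 1 / 2) / 4 * v ^ 2 := mul_nonneg (by linarith) hv2'
    linarith
  have hC : 241 / 10000 ≤ (L - 1 / 2) / 8 := by linarith
  have hs : 0 ≤ m * v := mul_nonneg hm0 hv0
  have key : 16 * (v - u) ^ 2 + 2 * (1 - u ^ 2) * (L * u ^ 2 - v ^ 2 / 2 - (L - 1 / 2) * v ^ 4) =
      16 * ((1 + L / 8 * (1 - u ^ 2) - L / 2 * v ^ 2 + L / 4 * v * δ -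
      (L - 1 / 2) / 8 * v ^ 2 * m) * δ ^ 2 - (L / 4 - (L - 1 / 2) / 4 * v ^ 2) * ((m * v) * δ) +
      (L - 1 / 2) / 8 * (m * v) ^ 2) := by
    rw [hδ, hm]; ring
  rw [key]
  have h1 : 64 / 100 * δ ^ 2 ≤ (1 + L / 8 * (1 - u ^ 2) - L / 2 * v ^ 2 + L / 4 * v * δ -
      (L - 1 / 2) / 8 * v ^ 2 * m) * δ ^ 2 := mul_le_mul_of_nonneg_right hA (by positivity)
  have h2 : (L / 4 - (L - 1 / 2) / 4 * v ^ 2) * ((m * v) * δ) ≤ 1735 / 10000 * ((m * v) * δ) :=
    mul_le_mul_of_nonneg_right hB (mul_nonneg hs hδ0)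
  have h3 : 241 / 10000 * (m * v) ^ 2 ≤ (L - 1 / 2) / 8 * (m * v) ^ 2 :=
    mul_le_mul_of_nonneg_right hC (by positivity)
  have h4 : 0 ≤ 64 / 100 * δ ^ 2 - 1735 / 10000 * ((m * v) * δ) + 241 / 10000 * (m * v) ^ 2 := by
    nlinarith [sq_nonneg (8 * δ - 1.1 * (m * v)), sq_nonneg (m * v)]
  linarith

/-- the main case -/
theorem main_case {w z : ℝ} (hw0 : 0 ≤ w) (hwz : w ≤ z) (hz0 : 0 < z) (hz1 : z ≤ 1 / 2) :
    log 2 / 4 * (z * (1 - z)) ≤ KL w z + 1 / 16 * hb w := by
  have h1 := KL_ge hw0 hwz hz0 hz1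
  have h2 := hb_ge hw0 (hwz.trans hz1)
  have hL0 : 693 / 1000 ≤ log 2 := by have := Real.log_two_gt_d9; linarith
  have hL1 : log 2 ≤ 694 / 1000 := by have := Real.log_two_lt_d9; linarith
  have h3 := poly_ineq (u := 1 - 2 * z) (v := 1 - 2 * w) hL0 hL1 (by linarith) (by linarith)
    (by linarith)
  have hzz : 0 < z * (1 - z) := mul_pos hz0 (by linarith)
  have hz' : (1 : ℝ) - z ≠ 0 := by
    have : 0 < 1 - z := by linarith
    exact this.ne'
  have h4 : (1 : ℝ) - (1 - 2 * z) ^ 2 = 4 * (z * (1 - z)) := by ring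
  have h5 : 0 ≤ 8 * (z - w) ^ 2 / (z * (1 - z)) + (log 2 * (1 - 2 * z) ^ 2 - (1 - 2 * w) ^ 2 / 2 -
      (log 2 - 1 / 2) * (1 - 2 * w) ^ 4) := by
    have e : 8 * (z - w) ^ 2 / (z * (1 - z)) + (log 2 * (1 - 2 * z) ^ 2 - (1 - 2 * w) ^ 2 / 2 -
      (log 2 - 1 / 2) * (1 - 2 * w) ^ 4) = (16 * ((1 - 2 * w) - (1 - 2 * z)) ^ 2 +
        2 * (1 - (1 - 2 * z) ^ 2) * (log 2 * (1 - 2 * z) ^ 2 - (1 - 2 * w) ^ 2 / 2 -
        (log 2 - 1 / 2) * (1 - 2 * w) ^ 4)) / (8 * (z * (1 - z))) := by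
      rw [h4]
      field_simp
      ring
    rw [e]
    exact div_nonneg h3 (by positivity)
  have h6 : (z - w) ^ 2 / (2 * (z * (1 - z))) = 1 / 16 * (8 * (z - w) ^ 2 / (z * (1 - z))) := by
    field_simp; ring
  rw [h6] at h1
  nlinarith

theorem KL_symm (w z : ℝ) : KL (1 - w) (1 - z) = KL w z := by
  simp only [KL, sub_sub_cancel]; ring

theorem hb_symm (w : ℝ) : hb (1 - w) = hb w := by
  simp only [hb, sub_sub_cancel]; ring

theorem half_case {w z : ℝ} (hw0 : 0 ≤ w) (hw1 : w ≤ 1) (hz0 : 0 < z) (hz1 : z ≤ 1 / 2) :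
    log 2 / 4 * (z * (1 - z)) ≤ KL w z + 1 / 16 * hb w := by
  have hL0 : 0 < log 2 := log_pos (by norm_num)
  -- both at most 1/2
  have key : ∀ w, 0 ≤ w → w ≤ 1 / 2 → log 2 / 4 * (z * (1 - z)) ≤ KL w z + 1 / 16 * hb w := by
    intro w hw0 hw1
    rcases le_total w z with h | h
    · exact main_case hw0 h hz0 hz1
    · have h1 := KL_nonneg (w := w) (z := z) hw0 (by linarith) hz0 (by linarith)
      have h2 := hb_ge' hw0 hw1
      have h3 : z * (1 - z) ≤ w * (1 - w) := by nlinarith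
      nlinarith
  rcases le_total w (1 / 2) with h | h
  · exact key w hw0 h
  · have h1 := key (1 - w) (by linarith) (by linarith)
    rw [hb_symm] at h1
    have h2 : KL (1 - w) z ≤ KL w z := by
      have h3 : KL w z - KL (1 - w) z = (2 * w - 1) * (log (1 - z) - log z) := by
        simp only [KL, sub_sub_cancel]; ring
      have h4 : log z ≤ log (1 - z) := log_le_log hz0 (by linarith)
      have h5 : 0 ≤ (2 * w - 1) * (log (1 - z) - log z) :=
        mul_nonneg (by linarith) (by linarith)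
      linarith
    linarith

theorem lemQ {w z : ℝ} (hw0 : 0 ≤ w) (hw1 : w ≤ 1) (hz0 : 0 ≤ z) (hz1 : z ≤ 1)
    (h0 : z = 0 → w = 0) (h1 : z = 1 → w = 1) :
    log 2 / 4 * (z * (1 - z)) ≤
      w * log (w / z) + (1 - w) * log ((1 - w) / (1 - z)) + 1 / 16 * hb w := by
  rcases hz0.eq_or_lt with hz | hz
  · have := h0 hz.symm
    subst this; subst hz
    simp [hb]
  rcases hz1.eq_or_lt with hz' | hz'
  · have := h1 hz'
    subst this; subst hz'
    simp [hb]
  rw [KL_eq hw0 hw1 hz hz']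
  rcases le_total z (1 / 2) with h | h
  · exact half_case hw0 hw1 hz h
  · have h2 := half_case (w := 1 - w) (z := 1 - z) (by linarith) (by linarith) (by linarith)
      (by linarith)
    rw [KL_symm, hb_symm] at h2
    have : (1 - z) * (1 - (1 - z)) = z * (1 - z) := by ring
    rw [this] at h2
    exact h2

theorem lemQ' {W0 W1 R0 R1 : ℝ} (hW0 : 0 ≤ W0) (hW1 : 0 ≤ W1) (hR0 : 0 ≤ R0) (hR1 : 0 ≤ R1)
    (h0 : 0 < W0 → 0 < R0) (h1 : 0 < W1 → 0 < R1) (hS : 0 < R0 + R1) :
    (W0 + W1) * (-log (R0 + R1) + log 2 / 4 * (R0 / (R0 + R1) * (R1 / (R0 + R1)))) ≤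
      1 / 16 * EE W0 W1 - negMulLog W0 - negMulLog W1 + negMulLog (W0 + W1)
        - W0 * log R0 - W1 * log R1 := by
  rcases (add_nonneg hW0 hW1).eq_or_lt with hT | hT
  · have e0 : W0 = 0 := by linarith
    have e1 : W1 = 0 := by linarith
    subst e0; subst e1
    simp [EE]
  have hR : R1 / (R0 + R1) = 1 - R0 / (R0 + R1) := by field_simp; ring
  have hW : 1 - W0 / (W0 + W1) = W1 / (W0 + W1) := by field_simp; ring
  have key := lemQ (w := W0 / (W0 + W1)) (z := R0 / (R0 + R1)) (by positivity)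
    (by rw [div_le_one hT]; linarith) (by positivity) (by rw [div_le_one hS]; linarith)
    (by
      intro h
      rw [div_eq_zero_iff] at h
      rcases h with h | h
      · rcases hW0.eq_or_lt with h2 | h2
        · rw [← h2]; simp
        · exact absurd h (h0 h2).ne'
      · linarith)
    (by
      intro h
      rw [div_eq_one_iff_eq hS.ne'] at h
      rcases hW1.eq_or_lt with h2 | h2
      · rw [← h2, add_zero]
        rw [← h2, add_zero] at hT
        exact div_self hT.ne'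
      · have := h1 h2; linarith)
  rw [← hR, hW] at key
  have k1 := mul_le_mul_of_nonneg_left key hT.le
  have e1 : (W0 + W1) * (W0 / (W0 + W1) * log (W0 / (W0 + W1) / (R0 / (R0 + R1)))) =
      -negMulLog W0 - W0 * log (W0 + W1) - W0 * log R0 + W0 * log (R0 + R1) := by
    rcases hW0.eq_or_lt with h2 | h2
    · rw [← h2]; simp
    · have hr := h0 h2
      rw [log_div (by positivity) (by positivity), log_div h2.ne' hT.ne', log_div hr.ne' hS.ne',
        negMulLog]
      field_simp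
      ring
  have e2 : (W0 + W1) * (W1 / (W0 + W1) * log (W1 / (W0 + W1) / (R1 / (R0 + R1)))) =
      -negMulLog W1 - W1 * log (W0 + W1) - W1 * log R1 + W1 * log (R0 + R1) := by
    rcases hW1.eq_or_lt with h2 | h2
    · rw [← h2]; simp
    · have hr := h1 h2
      rw [log_div (by positivity) (by positivity), log_div h2.ne' hT.ne', log_div hr.ne' hS.ne',
        negMulLog]
      field_simp
      ring
  have e3 : (W0 + W1) * hb (W0 / (W0 + W1)) = EE W0 W1 := by
    rw [hb, hW, EE]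
    have n0 : (W0 + W1) * negMulLog (W0 / (W0 + W1)) = negMulLog W0 + W0 * log (W0 + W1) := by
      rcases hW0.eq_or_lt with h2 | h2
      · rw [← h2]; simp
      · rw [negMulLog, negMulLog, log_div h2.ne' hT.ne']
        field_simp
        ring
    have n1 : (W0 + W1) * negMulLog (W1 / (W0 + W1)) = negMulLog W1 + W1 * log (W0 + W1) := by
      rcases hW1.eq_or_lt with h2 | h2
      · rw [← h2]; simp
      · rw [negMulLog, negMulLog, log_div h2.ne' hT.ne']
        field_simp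
        ring
    rw [mul_add, n0, n1]
    simp only [negMulLog]; ring
  have e4 : (W0 + W1) * (W0 / (W0 + W1) * log (W0 / (W0 + W1) / (R0 / (R0 + R1))) +
      W1 / (W0 + W1) * log (W1 / (W0 + W1) / (R1 / (R0 + R1))) + 1 / 16 * hb (W0 / (W0 + W1))) =
      (-negMulLog W0 - W0 * log (W0 + W1) - W0 * log R0 + W0 * log (R0 + R1)) +
      (-negMulLog W1 - W1 * log (W0 + W1) - W1 * log R1 + W1 * log (R0 + R1)) +
      1 / 16 * EE W0 W1 := by
    rw [mul_add, mul_add, e1, e2, ← e3]; ring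
  rw [e4] at k1
  have e5 : negMulLog (W0 + W1) = -(W0 + W1) * log (W0 + W1) := rfl
  rw [e5]
  linarith

end H784U.Q
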